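import Pool.Agent.L7h23.QD.Rsd

/-!
Project QD (helper3), part DIV: the limit of the division sum.
-/

set_option autoImplicit false
set_option linter.unusedVariables false
set_option linter.unusedSectionVars false
set_option linter.unusedSimpArgs false

open Filter Complex
open scoped Topology PeriodPair
open H667R3 hiding sq
open Pool.Agent.TH936.CM Pool.Agent.W192.HK

namespace Pool.Agent.L7h23.QD

open Pool.Agent.Y699 Pool.Agent.L7h3.QD
open H385 (ZI RQ im1 nrm)
open Pool.Agent.H304R3.HK (tc HC LH chi_le)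
open Pool.Agent.W164.RC (tc_mul tc_star two2 prim_iff_dvd unit_cases)
open Pool.Agent.H304R2.EC.A1 (prim prim_mul prim_cancel prim_one prim_norm_odd prim_star eq_one_of_prim
  norm_def' re_mul' im_mul' eq_of_dvd prim_ne_zero)

variable {L : PeriodPair} {Ω : ℂ} {ι : Type} [DecidableEq ι] {pr : ι → ZI}

/-- multiplication by the unit -/
lemma sum_I (h : GLat L Ω) {D : ZI} (hD : prim D) [Fintype (RQ D)] {F : ZI → ℂ} {κ : ℂ}
    (hper : ∀ a b, D ∣ a - b → F a = F b) (hi : ∀ a, F (im1 * a) = κ * F a) (δ : ℝ) (t : ℂ) :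
    ∑ q : RQ D, F q.out * EG Ω δ (I * t + zq Ω D q.out) =
      κ * (-I) * ∑ q : RQ D, F q.out * EG Ω δ (t + zq Ω D q.out) := by
  have hD0 : D ≠ 0 := prim_ne_zero hD
  rw [← sum_unit_mul (im1_isUnit D), Finset.mul_sum]
  refine Finset.sum_congr rfl fun q _ => ?_
  have e1 : F (Ideal.Quotient.mk (Ideal.span {D}) im1 * q).out = κ * F q.out := by
    rw [hper _ _ (out_mul D im1 q), hi]
  have e2 : EG Ω δ (I * t + zq Ω D (Ideal.Quotient.mk (Ideal.span {D}) im1 * q).out) =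
      EG Ω δ (I * (t + zq Ω D q.out)) := by
    apply EG_per h.lat
    have h1 := zq_sub h.lat hD0 (out_mul D im1 q)
    rw [zq_mul, tc_im1] at h1
    have e3 : I * t + zq Ω D (Ideal.Quotient.mk (Ideal.span {D}) im1 * q).out -
        I * (t + zq Ω D q.out) =
        zq Ω D (Ideal.Quotient.mk (Ideal.span {D}) im1 * q).out - I * zq Ω D q.out := by ring
    rw [e3]
    exact h1
  rw [e1, e2, EG_I]
  ring

/-- the average over the units -/
lemma sum_avg (h : GLat L Ω) {D : ZI} (hD : prim D) [Fintype (RQ D)] {F : ZI → ℂ} {κ ε : ℂ}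
    (hper : ∀ a b, D ∣ a - b → F a = F b) (hi : ∀ a, F (im1 * a) = κ * F a)
    (hε : κ * (-I) = ε) (hε2 : ε * ε = 1) (δ : ℝ) (t : ℂ) :
    ∑ q : RQ D, F q.out * EG Ω δ (t + zq Ω D q.out) =
      1 / 4 * ∑ q : RQ D, F q.out * (EG Ω δ (zq Ω D q.out + t) + EG Ω δ (zq Ω D q.out - t) +
        ε * (EG Ω δ (zq Ω D q.out + I * t) + EG Ω δ (zq Ω D q.out - I * t))) := by
  have hsum : ∀ s : ℂ, ∑ q : RQ D, F q.out * EG Ω δ (I * s + zq Ω D q.out) =
      ε * ∑ q : RQ D, F q.out * EG Ω δ (s + zq Ω D q.out) := by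
    intro s
    rw [sum_I h hD hper hi, hε]
  have k1 := hsum t
  have k2 := hsum (I * t)
  have k3 := hsum (-t)
  have e1 : I * (I * t) = -t := by linear_combination t * I_sq
  have e2 : I * -t = -(I * t) := by ring
  rw [e1, k1] at k2
  rw [e2, k2] at k3
  set S := ∑ q : RQ D, F q.out * EG Ω δ (t + zq Ω D q.out) with hS
  have e3 : ∀ q : RQ D, F q.out * (EG Ω δ (zq Ω D q.out + t) + EG Ω δ (zq Ω D q.out - t) +
        ε * (EG Ω δ (zq Ω D q.out + I * t) + EG Ω δ (zq Ω D q.out - I * t))) =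
      F q.out * EG Ω δ (t + zq Ω D q.out) + F q.out * EG Ω δ (-t + zq Ω D q.out) +
      (ε * (F q.out * EG Ω δ (I * t + zq Ω D q.out)) +
       ε * (F q.out * EG Ω δ (-(I * t) + zq Ω D q.out))) := by
    intro q
    rw [add_comm t, add_comm (-t), add_comm (I * t), add_comm (-(I * t)), ← sub_eq_add_neg,
      ← sub_eq_add_neg]
    ring
  simp_rw [e3]
  rw [Finset.sum_add_distrib, Finset.sum_add_distrib, Finset.sum_add_distrib, ← Finset.mul_sum,
    ← Finset.mul_sum, k1, k2, k3, ← hS]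
  linear_combination (-(S / 4) * (2 + ε * ε + 1)) * hε2

/-- the limit with any two points -/
lemma lim_pair (h : GLat L Ω) {D : ZI} (hD : prim D) [Fintype (RQ D)] {F : ZI → ℂ} {κ ε : ℂ}
    (hper : ∀ a b, D ∣ a - b → F a = F b) (hi : ∀ a, F (im1 * a) = κ * F a)
    (hz : ∀ a, D ∣ a → F a = 0)
    (hε : κ * (-I) = ε) (hε2 : ε * ε = 1) {s t : ℂ} (hs : s ∉ L.lattice) (ht : t ∉ L.lattice)
    (hs4 : 4 * s ∈ L.lattice) (ht4 : 4 * t ∈ L.lattice) :
    Tendsto (fun δ : ℝ => ∑ q : RQ D, F q.out * (EG Ω δ (s + zq Ω D q.out) -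
      EG Ω δ (t + zq Ω D q.out))) (𝓝[>] 0)
      (𝓝 (1 / 4 * ∑ q : RQ D, F q.out * (Dd L (zq Ω D q.out) s + ε * Dd L (zq Ω D q.out) (I * s) -
        Dd L (zq Ω D q.out) t - ε * Dd L (zq Ω D q.out) (I * t)))) := by
  have hD0 : D ≠ 0 := prim_ne_zero hD
  have four : ∀ {x : ℂ}, OT L x → 4 * x ∉ L.lattice := by
    intro x hx
    have h1 := (hx.pow h 2).two h
    intro h'
    apply h1
    have h2 := lat_I h.lat h'
    have e : 2 * ((1 + I) ^ 2 * x) = I * (4 * x) := by linear_combination (2 * x) * I_sq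
    rwa [e]
  have lim : ∀ (x r : ℂ), OT L x → r ∉ L.lattice → 4 * r ∈ L.lattice →
      Tendsto (fun δ : ℝ => EG Ω δ (x + r) + EG Ω δ (x - r) - 2 * EG Ω δ x) (𝓝[>] 0)
        (𝓝 (Dd L x r)) := by
    intro x r hx hr hr4
    have f := four hx
    have hxn : x ∉ L.lattice := by
      intro h'
      apply f
      have h2 := L.lattice.smul_mem (4 : ℤ) h'
      have e : (4 : ℤ) • x = 4 * x := by rw [zsmul_eq_mul]; push_cast; ring
      rwa [e] at h2
    have a1 : x + r ∉ L.lattice := by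
      intro h'
      apply f
      have h2 := sub_mem (L.lattice.smul_mem (4 : ℤ) h') hr4
      have e : (4 : ℤ) • (x + r) - 4 * r = 4 * x := by rw [zsmul_eq_mul]; push_cast; ring
      rwa [e] at h2
    have a2 : x - r ∉ L.lattice := by
      intro h'
      apply f
      have h2 := add_mem (L.lattice.smul_mem (4 : ℤ) h') hr4
      have e : (4 : ℤ) • (x - r) + 4 * r = 4 * x := by rw [zsmul_eq_mul]; push_cast; ring
      rwa [e] at h2
    have h3 := lim_Dd h.lat hxn hr a1 a2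
    refine h3.congr fun δ => ?_
    rw [← EG_eq, ← EG_eq, ← EG_eq]
  have hIn : ∀ {x : ℂ}, x ∉ L.lattice → I * x ∉ L.lattice := by
    intro x hx h'
    apply hx
    have h1 := neg_mem (lat_I h.lat h')
    have e : -(I * (I * x)) = x := by linear_combination (-x) * I_sq
    rwa [e] at h1
  have hI4 : ∀ {x : ℂ}, 4 * x ∈ L.lattice → 4 * (I * x) ∈ L.lattice := by
    intro x hx
    have h1 := lat_I h.lat hx
    have e : I * (4 * x) = 4 * (I * x) := by ring
    rwa [e] at h1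
  have key : ∀ q : RQ D, Tendsto (fun δ : ℝ => F q.out *
      ((EG Ω δ (zq Ω D q.out + s) + EG Ω δ (zq Ω D q.out - s) - 2 * EG Ω δ (zq Ω D q.out)) +
        ε * (EG Ω δ (zq Ω D q.out + I * s) + EG Ω δ (zq Ω D q.out - I * s) -
          2 * EG Ω δ (zq Ω D q.out)) -
       (EG Ω δ (zq Ω D q.out + t) + EG Ω δ (zq Ω D q.out - t) - 2 * EG Ω δ (zq Ω D q.out)) -
        ε * (EG Ω δ (zq Ω D q.out + I * t) + EG Ω δ (zq Ω D q.out - I * t) -
          2 * EG Ω δ (zq Ω D q.out)))) (𝓝[>] 0)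
      (𝓝 (F q.out * (Dd L (zq Ω D q.out) s + ε * Dd L (zq Ω D q.out) (I * s) -
        Dd L (zq Ω D q.out) t - ε * Dd L (zq Ω D q.out) (I * t)))) := by
    intro q
    by_cases hq : D ∣ q.out
    · rw [hz _ hq]
      simp only [zero_mul]
      exact tendsto_const_nhds
    · have hOT := zq_OT h hD hq
      have l1 := lim _ s hOT hs hs4
      have l2 := lim _ (I * s) hOT (hIn hs) (hI4 hs4)
      have l3 := lim _ t hOT ht ht4
      have l4 := lim _ (I * t) hOT (hIn ht) (hI4 ht4)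
      exact (((l1.add (l2.const_mul ε)).sub l3).sub (l4.const_mul ε)).const_mul _
  have hT := (tendsto_finsetSum Finset.univ fun q _ => key q).const_mul (1 / 4)
  refine hT.congr fun δ => ?_
  have e1 : ∀ q : RQ D, F q.out * (EG Ω δ (s + zq Ω D q.out) - EG Ω δ (t + zq Ω D q.out)) =
      F q.out * EG Ω δ (s + zq Ω D q.out) - F q.out * EG Ω δ (t + zq Ω D q.out) := fun q => by ring
  simp_rw [e1]
  rw [Finset.sum_sub_distrib, sum_avg h hD hper hi hε hε2, sum_avg h hD hper hi hε hε2 δ t,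
    ← mul_sub, ← Finset.sum_sub_distrib]
  congr 1
  refine Finset.sum_congr rfl fun q _ => ?_
  ring

lemma not_dvd_four {z : ZI} (h : ¬ (z.re % 4 = 0 ∧ z.im % 4 = 0)) : ¬ (4 : ZI) ∣ z :=
  fun h' => h ((dvd_four z).1 h')

theorem t_DIV (hQ : S_QPT) : S_DIV := by
  intro L Ω h D hD _ w hw F hper hi hz
  obtain ⟨p0, p2, pc, pk⟩ := hQ L Ω h
  have he1 := h.e1_sq
  have hτ : Ω / 4 ∉ L.lattice := by
    have := div_notMem h.lat (a := 1) (b := 4) (by decide) (not_dvd_four (by decide))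
    rwa [tc_one, tc_four, mul_one] at this
  have hτ' : (3 + 2 * I) * (Ω / 4) ∉ L.lattice := by
    have := div_notMem h.lat (a := c32) (b := 4) (by decide) (not_dvd_four (by decide))
    rw [tc_c32, tc_four] at this
    have e : (3 + 2 * I) * (Ω / 4) = Ω * (3 + 2 * I) / 4 := by ring
    rwa [e]
  have hτ4 : 4 * (Ω / 4) ∈ L.lattice := (mem_lat h.lat).2 ⟨1, by rw [tc_one]; ring⟩
  have hτ4' : 4 * ((3 + 2 * I) * (Ω / 4)) ∈ L.lattice :=
    (mem_lat h.lat).2 ⟨c32, by rw [tc_c32]; ring⟩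
  have hI1 : ℘[L] (I * (Ω / 4)) = -℘[L] (Ω / 4) := wp_I h.lat _
  have hI2 : ℘[L] (I * ((3 + 2 * I) * (Ω / 4))) = (℘[L] (Ω / 4))⁻¹ := by
    rw [wp_I h.lat, pc, neg_neg]
  -- the differences are not zero
  have ndiff : ∀ {x r : ℂ}, OT L x → r ∉ L.lattice → 4 * r ∈ L.lattice → ℘[L] x - ℘[L] r ≠ 0 := by
    intro x r hx hr hr4
    have f : 4 * x ∉ L.lattice := by
      have h1 := (hx.pow h 2).two h
      intro h'
      apply h1
      have h2 := lat_I h.lat h'
      have e : 2 * ((1 + I) ^ 2 * x) = I * (4 * x) := by linear_combination (2 * x) * I_sq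
      rwa [e]
    have hxn : x ∉ L.lattice := by
      intro h'
      apply f
      have h2 := L.lattice.smul_mem (4 : ℤ) h'
      have e : (4 : ℤ) • x = 4 * x := by rw [zsmul_eq_mul]; push_cast; ring
      rwa [e] at h2
    rw [sub_ne_zero, Ne, wp_eq_iff L hxn hr]
    rintro (h' | h')
    · apply f
      have h2 := sub_mem (L.lattice.smul_mem (4 : ℤ) h') hr4
      have e : (4 : ℤ) • (x + r) - 4 * r = 4 * x := by rw [zsmul_eq_mul]; push_cast; ring
      rwa [e] at h2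
    · apply f
      have h2 := add_mem (L.lattice.smul_mem (4 : ℤ) h') hr4
      have e : (4 : ℤ) • (x - r) + 4 * r = 4 * x := by rw [zsmul_eq_mul]; push_cast; ring
      rwa [e] at h2
  have hIn : ∀ {x : ℂ}, x ∉ L.lattice → I * x ∉ L.lattice := by
    intro x hx h'
    apply hx
    have h1 := neg_mem (lat_I h.lat h')
    have e : -(I * (I * x)) = x := by linear_combination (-x) * I_sq
    rwa [e] at h1
  have hI4 : ∀ {x : ℂ}, 4 * x ∈ L.lattice → 4 * (I * x) ∈ L.lattice := by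
    intro x hx
    have h1 := lat_I h.lat hx
    have e : I * (4 * x) = 4 * (I * x) := by ring
    rwa [e] at h1
  set p := ℘[L] (Ω / 4) with hp
  set e1 := ℘[L] (Ω / 2) with he
  have hpp : p * p⁻¹ = 1 := mul_inv_cancel₀ p0
  have hpi : p - p⁻¹ = 2 * e1 := by
    have : p * (p - p⁻¹) = p * (2 * e1) := by linear_combination p2 - hpp
    exact mul_left_cancel₀ p0 this
  have hκ : kp L Ω = p + p⁻¹ := rfl
  rw [hκ] at pk
  have h1I : (1 + I : ℂ) ≠ 0 := one_I_ne
  have hval : ∀ (ε : ℂ) (q : RQ D), OT L (zq Ω D q.out) → (ε = if w = 1 then 1 else -1) →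
      Dd L (zq Ω D q.out) (Ω / 4) + ε * Dd L (zq Ω D q.out) (I * (Ω / 4)) -
        Dd L (zq Ω D q.out) ((3 + 2 * I) * (Ω / 4)) -
        ε * Dd L (zq Ω D q.out) (I * ((3 + 2 * I) * (Ω / 4))) =
      4 * (cw L Ω w / (1 + I) * gd L (kp L Ω) w (zq Ω D q.out)) := by
    intro ε q hOT hεw
    have d1 := ndiff hOT hτ hτ4
    have d2 := ndiff hOT (hIn hτ) (hI4 hτ4)
    have d3 := ndiff hOT hτ' hτ4'
    have d4 := ndiff hOT (hIn hτ') (hI4 hτ4')
    unfold Dd
    rw [hI1] at d2 ⊢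
    rw [pc] at d3 ⊢
    rw [hI2] at d4 ⊢
    rw [← hp] at d1 ⊢
    set x := ℘[L] (zq Ω D q.out) with hx
    set y := ℘'[L] (zq Ω D q.out) with hy
    set r := p⁻¹ with hr
    have hq : qp L (zq Ω D q.out) = (x - p) * (x - -p) * ((x - -r) * (x - r)) := by
      unfold qp
      rw [← hx]
      linear_combination (x ^ 2) * pk + (-2 * x ^ 2 - p * r - 1) * hpp
    have hqn : (x - p) * (x - -p) * ((x - -r) * (x - r)) ≠ 0 :=
      mul_ne_zero (mul_ne_zero d1 d2) (mul_ne_zero d3 d4)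
    rcases hw with hw | hw
    · rw [hw, if_pos rfl] at hεw
      rw [hw, hεw]
      unfold gd cw
      rw [if_pos rfl, if_pos rfl, hq, hκ, ← hx, ← hy, ← he]
      have hpe : e1 = (p - r) / 2 := by rw [hpi]; ring
      rw [hpe]
      field_simp
      ring
    · have hw1 : ¬ w = 1 := by omega
      rw [if_neg hw1] at hεw
      rw [hεw]
      unfold gd cw
      rw [if_neg hw1, if_neg hw1, hq, hκ, ← hx, ← hy]
      have hgoal : y / (x - p) + -1 * (y / (x - -p)) - y / (x - -r) - -1 * (y / (x - r)) =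
          4 * (1 / (1 + I) * ((1 + I) * ((p + r) / 2) * (y * (x ^ 2 - p * r)) /
            ((x - p) * (x - -p) * ((x - -r) * (x - r))))) := by
        field_simp
        ring
      rw [hgoal, hpp]
  have fin : ∀ κ ε : ℂ, (∀ a, F (im1 * a) = κ * F a) → κ * (-I) = ε → ε * ε = 1 →
      (ε = if w = 1 then 1 else -1) →
      Tendsto (fun δ : ℝ => ∑ q : RQ D, F q.out * (EG Ω δ (Ω / 4 + zq Ω D q.out) -
        EG Ω δ ((3 + 2 * I) * (Ω / 4) + zq Ω D q.out))) (𝓝[>] 0)
      (𝓝 (cw L Ω w / (1 + I) * ∑ q : RQ D, F q.out * gd L (kp L Ω) w (zq Ω D q.out))) := by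
    intro κ ε hi' hε hε2 hεw
    have T := lim_pair h hD hper hi' hz hε hε2 hτ hτ' hτ4 hτ4'
    have hv : 1 / 4 * ∑ q : RQ D, F q.out * (Dd L (zq Ω D q.out) (Ω / 4) +
        ε * Dd L (zq Ω D q.out) (I * (Ω / 4)) - Dd L (zq Ω D q.out) ((3 + 2 * I) * (Ω / 4)) -
        ε * Dd L (zq Ω D q.out) (I * ((3 + 2 * I) * (Ω / 4)))) =
        cw L Ω w / (1 + I) * ∑ q : RQ D, F q.out * gd L (kp L Ω) w (zq Ω D q.out) := by
      rw [Finset.mul_sum, Finset.mul_sum]
      refine Finset.sum_congr rfl fun q _ => ?_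
      by_cases hq : D ∣ q.out
      · rw [hz _ hq]; ring
      · rw [hval ε q (zq_OT h hD hq) hεw]; ring
    rw [hv] at T
    exact T
  rcases hw with hw | hw
  · refine fin I 1 (fun a => by rw [hi, hw, pow_one]) (by linear_combination -I_sq) (by norm_num) ?_
    rw [if_pos hw]
  · refine fin (-I) (-1) (fun a => by rw [hi, hw]; linear_combination (I * F a) * I_sq)
      (by linear_combination I_sq) (by norm_num) ?_
    rw [if_neg (by omega)]

end Pool.Agent.L7h23.QD
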