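import Pool.Agent.L7h23.QD.Lim

/-!
Project QD (helper3), parts ERD and PHD: a vanishing exponent in class (d).
-/

set_option autoImplicit false
set_option linter.unusedVariables false
set_option linter.unusedSectionVars false
set_option linter.unusedSimpArgs false

open Filter Complex
open scoped Topology PeriodPair
open H667R3 hiding sq
open Pool.Agent.TH936.CM Pool.Agent.W192.HK

namespace Pool.Agent.L7h23.QD

open Pool.Agent.Y699 Pool.Agent.L7h3.QD
open H385 (ZI RQ im1 nrm)
open Pool.Agent.H304R3.HK (tc HC LH chi_le)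
open Pool.Agent.W164.RC (tc_mul tc_star two2 prim_iff_dvd unit_cases)
open Pool.Agent.H304R2.EC.A1 (prim prim_mul prim_cancel prim_one prim_norm_odd prim_star eq_one_of_prim
  norm_def' re_mul' im_mul' eq_of_dvd prim_ne_zero)

variable {L : PeriodPair} {Ω : ℂ} {ι : Type} [DecidableEq ι] {pr : ι → ZI}

lemma sd_cases (a : ZI) : sd a = 1 ∨ sd a = -1 := by
  unfold sd; split_ifs <;> simp

lemma tc_sd_sq (a : ZI) : tc (sd a) * tc (sd a) = 1 := by
  rcases sd_cases a with h | h <;> rw [h]
  · rw [tc_one, one_mul]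
  · rw [tc_neg, tc_one]; norm_num

lemma tc_sd_norm (a : ZI) : ‖tc (sd a)‖ = 1 := by
  rcases sd_cases a with h | h <;> rw [h]
  · rw [tc_one, norm_one]
  · rw [tc_neg, tc_one, norm_neg, norm_one]

lemma ccd_bd (hp : PF pr) (V : Finset ι) (e : ι → ℕ) (a : ZI) : ‖ccd pr V e a‖ ≤ 1 := by
  unfold ccd
  split_ifs
  · rw [norm_mul, tc_sd_norm, one_mul]
    exact c4_bd hp V e a
  · rw [norm_zero]; norm_num

/-- the relation of the regularized sums -/
lemma RS_erase (h : IsLat L RG Ω) (hp : PF pr) {V : Finset ι} {i : ι} (hi : i ∈ V) {e : ι → ℕ}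
    (he : e i = 0) {δ : ℝ} (hδ : 0 < δ) :
    RS (ccd pr V e) δ = RS (ccd pr (V.erase i) e) δ -
      (tc (sd (pr i)) * tc (c4 pr (V.erase i) e (pr i))) / tc (pr i) *
        RS (ccd pr (V.erase i) e) (δ * Complex.normSq (tc (pr i))) := by
  classical
  have h1 := RS_dvd (π := pr i) (hp.pp i).ne (ccd pr (V.erase i) e) δ
  have h3 : RS (fun b => ccd pr (V.erase i) e (pr i * b)) (δ * Complex.normSq (tc (pr i))) =
      tc (sd (pr i)) * tc (c4 pr (V.erase i) e (pr i)) *
        RS (ccd pr (V.erase i) e) (δ * Complex.normSq (tc (pr i))) := by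
    unfold RS
    rw [← tsum_mul_left]
    refine tsum_congr fun b => ?_
    have e5 : ccd pr (V.erase i) e (pr i * b) =
        tc (sd (pr i)) * tc (c4 pr (V.erase i) e (pr i)) * ccd pr (V.erase i) e b := by
      unfold ccd
      by_cases hb : prim b
      · rw [if_pos ((prim_mul_iff (hp.pp i).prm).2 hb), if_pos hb, c4_mul hp, tc_mul,
          sd_mul (hp.pp i).prm hb, tc_mul]
        ring
      · rw [if_neg (fun h' => hb ((prim_mul_iff (hp.pp i).prm).1 h')), if_neg hb, mul_zero]
    show ccd pr (V.erase i) e (pr i * b) * fd (δ * Complex.normSq (tc (pr i))) (tc b) = _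
    rw [e5, mul_assoc]
  rw [h3] at h1
  have h4 : ∀ a, ccd pr V e a = ccd pr (V.erase i) e a -
      (if pr i ∣ a then ccd pr (V.erase i) e a else 0) := by
    intro a
    have h5 : c4 pr V e a = fe (pr i) 0 a * c4 pr (V.erase i) e a := by
      unfold c4
      rw [← Finset.mul_prod_erase V _ hi, he]
    unfold ccd
    rw [h5]
    unfold fe
    by_cases ha : prim a
    · rw [if_pos ha, if_pos ha]
      by_cases hd : pr i ∣ a
      · rw [if_pos hd, if_pos hd, zero_mul, tc_zero, sub_self, mul_zero]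
      · rw [if_neg hd, if_neg hd, pow_zero, one_mul, sub_zero]
    · rw [if_neg ha, if_neg ha]
      split_ifs <;> simp
  have hs1 := summ_bd h hδ (ccd_bd hp (V.erase i) e)
  have hs2 : Summable (fun a : ZI => (if pr i ∣ a then ccd pr (V.erase i) e a else 0) * fd δ (tc a)) := by
    refine summ_bd h hδ (C := 1) fun a => ?_
    split_ifs
    · exact ccd_bd hp _ _ a
    · rw [norm_zero]; norm_num
  have h6 : RS (ccd pr V e) δ = RS (ccd pr (V.erase i) e) δ -
      RS (fun a => if pr i ∣ a then ccd pr (V.erase i) e a else 0) δ := by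
    unfold RS
    rw [← hs1.tsum_sub hs2]
    refine tsum_congr fun a => ?_
    rw [h4 a]
    ring
  rw [h6, h1]
  ring

theorem t_ERD (hL : S_LIM) : S_ERD := by
  classical
  intro L Ω h ι _ pr hp V e w i hw hi he hW _ _
  have hWe : Wt pr (V.erase i) e = Wt pr V e := by
    unfold Wt
    rw [← Finset.add_sum_erase V _ hi, he, zero_mul, zero_add]
  have hW' : Wt pr (V.erase i) e % 4 = w := by rw [hWe]; exact hW
  have l1 := hL L Ω h ι pr hp V e w hw hW
  have l2 := hL L Ω h ι pr hp (V.erase i) e w hw hW'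
  have hπ0 := tc_ne (hp.pp i).ne
  have hD0' := tc_ne (DD_ne hp (V.erase i))
  have hDV0 : DD pr V = pr i * DD pr (V.erase i) := by
    unfold DD
    rw [Finset.mul_prod_erase V pr hi]
  have hDV : tc (DD pr V) = tc (pr i) * tc (DD pr (V.erase i)) := by
    rw [hDV0, tc_mul]
  have hsd : tc (sd (DD pr V)) = tc (sd (pr i)) * tc (sd (DD pr (V.erase i))) := by
    rw [hDV0, sd_mul (hp.pp i).prm (DD_prim hp _), tc_mul]
  have hc : 0 < Complex.normSq (tc (pr i)) := Complex.normSq_pos.2 hπ0
  have l3 := l2.sub ((tendsto_scale l2 hc).const_mul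
    ((tc (sd (pr i)) * tc (c4 pr (V.erase i) e (pr i))) / tc (pr i)))
  have l4 := tendsto_nhds_unique (l1.congr' (by
    filter_upwards [self_mem_nhdsWithin] with δ (hδ : 0 < δ)
    exact RS_erase h.lat hp hi he hδ)) l3
  have hΩ := h.lat.ne
  have h1I : (1 + I : ℂ) ≠ 0 := one_I_ne
  have hcw : cw L Ω w ≠ 0 := by
    unfold cw
    split_ifs
    · intro h0
      have := h.e1_sq
      rw [h0] at this
      norm_num at this
    · norm_num
  have s1 := tc_sd_sq (pr i)
  have s2 := tc_sd_sq (DD pr (V.erase i))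
  rw [hDV, hsd] at l4
  set M := MG (gd L (kp L Ω) w) 4 Ω pr V e
  set M' := MG (gd L (kp L Ω) w) 4 Ω pr (V.erase i) e
  set s := tc (sd (pr i))
  set s' := tc (sd (DD pr (V.erase i)))
  set x := tc (c4 pr (V.erase i) e (pr i))
  set π := tc (pr i)
  set D' := tc (DD pr (V.erase i))
  have hs0 : s ≠ 0 := fun h0 => by rw [h0, zero_mul] at s1; exact zero_ne_one s1
  have hs0' : s' ≠ 0 := fun h0 => by rw [h0, zero_mul] at s2; exact zero_ne_one s2
  have k : s' * (Ω * cw L Ω w / ((1 + I) * D')) * (s / π * M) =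
      s' * (Ω * cw L Ω w / ((1 + I) * D')) * (M' * (1 - s * x / π)) := by
    have e1 : s * s' * (Ω * cw L Ω w / ((1 + I) * (π * D'))) * M =
        s' * (Ω * cw L Ω w / ((1 + I) * D')) * (s / π * M) := by
      field_simp
    rw [← e1, l4]
    ring
  have hne : s' * (Ω * cw L Ω w / ((1 + I) * D')) ≠ 0 :=
    mul_ne_zero hs0' (div_ne_zero (mul_ne_zero hΩ hcw) (mul_ne_zero h1I hD0'))
  have k2 := mul_left_cancel₀ hne k
  have k3 : M = s * π * (s / π * M) := by
    have : s * π * (s / π * M) = (s * s) * M := by field_simp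
    rw [this, s1, one_mul]
  rw [k3, k2]
  have e2 : s * π * (M' * (1 - s * x / π)) = M' * (s * π - (s * s) * x) := by
    field_simp
  rw [e2, s1, one_mul]

theorem t_PHD : S_PHD := by
  intro Γ _ v h2 ι _ _ pr hp V e i hi
  have c1 := fac4_cg h2 hp (e := e) hi
  have h1I : (1 + I : ℂ) ≠ 0 := one_I_ne
  rcases sd_cases (pr i) with h | h
  · rw [h, tc_one, one_mul]
    exact c1
  · rw [h, tc_neg, tc_one]
    have e1 : (-1 * tc (pr i) - tc (c4 pr V e (pr i))) / (1 + I) =
        (tc (pr i) - tc (c4 pr V e (pr i))) / (1 + I) + (I * (1 + I)) * tc (pr i) := by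
      field_simp
      linear_combination (-tc (pr i) * (2 + I)) * I_sq
    rw [e1]
    have c2 : Cg v ((I * (1 + I)) * tc (pr i)) 0 := by
      apply Cg.zero
      rw [map_mul, map_mul, v_I, one_mul]
      exact lt_of_le_of_lt (mul_le_of_le_one_right' (tc_le h2 _)) (v_pi_lt h2)
    have c3 := c1.add c2
    rwa [add_zero] at c3

end Pool.Agent.L7h23.QD
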