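import Pool.Agent.L7h23.QD.Div

/-!
Project QD (helper3), part LIM: the limit of the regularized sum of class (d).
-/

set_option autoImplicit false
set_option linter.unusedVariables false
set_option linter.unusedSectionVars false
set_option linter.unusedSimpArgs false

open Filter Complex
open scoped Topology PeriodPair
open H667R3 hiding sq
open Pool.Agent.TH936.CM Pool.Agent.W192.HK

namespace Pool.Agent.L7h23.QD

open Pool.Agent.Y699 Pool.Agent.L7h3.QD
open H385 (ZI RQ im1 nrm)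
open Pool.Agent.H304R3.HK (tc HC LH chi_le)
open Pool.Agent.W164.RC (tc_mul tc_star two2 prim_iff_dvd unit_cases)
open Pool.Agent.H304R2.EC.A1 (prim prim_mul prim_cancel prim_one prim_norm_odd prim_star eq_one_of_prim
  norm_def' re_mul' im_mul' eq_of_dvd prim_ne_zero)

variable {L : PeriodPair} {Ω : ℂ} {ι : Type} [DecidableEq ι] {pr : ι → ZI}

/-- the character at a unit -/
lemma c4_imw (hp : PF pr) {V : Finset ι} {e : ι → ℕ} {w : ℕ} (hw : Wt pr V e % 4 = w) (a : ZI) :
    tc (c4 pr V e (im1 * a)) = I ^ w * tc (c4 pr V e a) := by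
  rw [c4_mul hp, c4_unit hp V e im1_norm, unit_pow_mod im1_norm (n := w) (by omega), tc_mul, tc_pow,
    tc_im1]

lemma nonempty_of_Wt {V : Finset ι} {e : ι → ℕ} {w : ℕ} (hw : Wt pr V e % 4 = w) (h0 : w ≠ 0) :
    V.Nonempty := by
  rw [Finset.nonempty_iff_ne_empty]
  rintro rfl
  apply h0
  rw [← hw]
  unfold Wt
  simp

theorem t_LIM (hV : S_DIV) (hR : S_RSD) : S_LIM := by
  intro L Ω h ι _ pr hp V e w hw hW _
  have hDp : prim (DD pr V) := DD_prim hp V
  have hDc := tc_ne (DD_ne hp V)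
  have hΩ := h.lat.ne
  have hc : 0 < Complex.normSq (4 * tc (DD pr V) / Ω) :=
    Complex.normSq_pos.2 (div_ne_zero (mul_ne_zero (by norm_num) hDc) hΩ)
  have hVn : V.Nonempty := nonempty_of_Wt hW (by omega)
  have h1 := hV L Ω h (DD pr V) hDp w hw (fun t => tc (c4 pr V e (4 * t)))
    (fun a b hab => by
      show tc (c4 pr V e (4 * a)) = tc (c4 pr V e (4 * b))
      rw [c4_per hp V e (a := 4 * a) (b := 4 * b) (by rw [← mul_sub]; exact hab.mul_left _)])
    (fun a => by
      show tc (c4 pr V e (4 * (im1 * a))) = I ^ w * tc (c4 pr V e (4 * a))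
      have e1 : 4 * (im1 * a) = im1 * (4 * a) := by ring
      rw [e1, c4_imw hp hW])
    (fun a ha => by
      obtain ⟨i, hi⟩ := hVn
      show tc (c4 pr V e (4 * a)) = 0
      rw [c4_zero e hi (((dvd_DD hi).trans ha).mul_left _), tc_zero])
  have h2 := (tendsto_scale h1 hc).const_mul (tc (sd (DD pr V)) * (Ω / (4 * tc (DD pr V))))
  have h1I : (1 + I : ℂ) ≠ 0 := one_I_ne
  have e3 : tc (sd (DD pr V)) * (Ω / (4 * tc (DD pr V))) * (cw L Ω w / (1 + I) *
      ∑ q : RQ (DD pr V), tc (c4 pr V e (4 * q.out)) * gd L (kp L Ω) w (zq Ω (DD pr V) q.out)) =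
      tc (sd (DD pr V)) * (Ω * cw L Ω w / ((1 + I) * tc (DD pr V))) * MG (gd L (kp L Ω) w) 4 Ω pr V e := by
    unfold MG
    field_simp
  rw [← e3]
  refine h2.congr' ?_
  filter_upwards [self_mem_nhdsWithin] with δ (hδ : 0 < δ)
  exact (hR L Ω h.lat ι pr hp V e δ hδ).symm

end Pool.Agent.L7h23.QD
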