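import Pool.Agent.L7h3.QD.Stm

/-!
Project QD (helper3), part RSD: the regularized sum of class (d) as a sum over the division points.
-/

set_option autoImplicit false
set_option linter.unusedVariables false
set_option linter.unusedSectionVars false
set_option linter.unusedSimpArgs false

open Filter Complex
open scoped Topology PeriodPair
open H667R3 hiding sq
open Pool.Agent.TH936.CM Pool.Agent.W192.HK

namespace Pool.Agent.L7h23.QD

open Pool.Agent.Y699 Pool.Agent.L7h3.QD
open H385 (ZI RQ im1 nrm)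
open Pool.Agent.H304R3.HK (tc HC LH chi_le)
open Pool.Agent.W164.RC (tc_mul tc_star two2 prim_iff_dvd unit_cases)
open Pool.Agent.H304R2.EC.A1 (prim prim_mul prim_cancel prim_one prim_norm_odd prim_star eq_one_of_prim
  norm_def' re_mul' im_mul' eq_of_dvd prim_ne_zero)

variable {L : PeriodPair} {Ω : ℂ} {ι : Type} [DecidableEq ι] {pr : ι → ZI}

lemma tc_four : tc (4 : ZI) = 4 := by
  have := tc_int 4
  push_cast at this
  exact this

lemma four_ne : (4 : ZI) ≠ 0 := by decide

/-- a sum over the elements `c D + 4 t` -/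
theorem RS_four (h : IsLat L RG Ω) {D : ZI} (hD : prim D) (c : ZI) [Fintype (RQ D)] {F : ZI → ℂ}
    (hF : ∀ a, ‖F a‖ ≤ 1) (hper : ∀ a b, D ∣ a - b → F a = F b) {δ : ℝ} (hδ : 0 < δ) :
    Summable (fun t : ZI => F t * fd δ (tc (c * D + 4 * t))) ∧
    ∑' t : ZI, F t * fd δ (tc (c * D + 4 * t)) = Ω / (4 * tc D) *
      ∑ q : RQ D, F q.out *
        EG Ω (δ * Complex.normSq (4 * tc D / Ω)) (tc c * (Ω / 4) + zq Ω D q.out) := by
  have hD0 : D ≠ 0 := prim_ne_zero hD
  have hDc := tc_ne hD0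
  have hΩ := h.ne
  have hinj : Function.Injective (fun t : ZI => c * D + 4 * t) := by
    intro a b hab
    have : (4 : ZI) * a = 4 * b := by
      have h1 : c * D + 4 * a = c * D + 4 * b := hab
      linear_combination h1
    exact mul_left_cancel₀ (by decide) this
  have hs0 : Summable (fun t : ZI => fd δ (tc (c * D + 4 * t))) :=
    (summ_tc h hδ).comp_injective hinj
  have hs1 : Summable (fun t : ZI => F t * fd δ (tc (c * D + 4 * t))) := by
    refine Summable.of_norm_bounded hs0.norm fun t => ?_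
    rw [norm_mul]
    exact mul_le_of_le_one_left (norm_nonneg _) (hF t)
  refine ⟨hs1, ?_⟩
  set k : ℂ := 4 * tc D / Ω with hk
  have hk0 : k ≠ 0 := div_ne_zero (mul_ne_zero (by norm_num) hDc) hΩ
  have hs2 : Summable (fun p : RQ D × ZI =>
      F (prt' D hD0 p) * fd δ (tc (c * D + 4 * prt' D hD0 p))) :=
    ((prt' D hD0).summable_iff (f := fun t => F t * fd δ (tc (c * D + 4 * t)))).2 hs1
  rw [← (prt' D hD0).tsum_eq, hs2.tsum_prod' (fun q => hs2.prod_factor q), tsum_fintype,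
    Finset.mul_sum]
  refine Finset.sum_congr (by ext; simp) fun q _ => ?_
  unfold EG
  rw [← tsum_mul_left, ← tsum_mul_left]
  refine tsum_congr fun b => ?_
  have e2 : F (prt' D hD0 (q, b)) = F q.out := by
    apply hper
    rw [prt'_apply]
    exact ⟨b, by ring⟩
  have e3 : tc (c * D + 4 * prt' D hD0 (q, b)) =
      k * (tc c * (Ω / 4) + zq Ω D q.out + Ω * tc b) := by
    rw [prt'_apply, tc_add, tc_mul, tc_mul, tc_add, tc_mul, hk, tc_four]
    unfold zq
    field_simp
    ring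
  rw [e2, e3, fd_mul, hk, inv_div]
  ring

lemma dvd_four (z : ZI) : (4 : ZI) ∣ z ↔ z.re % 4 = 0 ∧ z.im % 4 = 0 := by
  have e1 : (4 : ZI).re = 4 := rfl
  have e2 : (4 : ZI).im = 0 := rfl
  constructor
  · rintro ⟨c, rfl⟩
    rw [re_mul', im_mul', e1, e2]
    omega
  · rintro ⟨h1, h2⟩
    refine ⟨⟨z.re / 4, z.im / 4⟩, ?_⟩
    ext
    · rw [re_mul', e1, e2]; simp only; omega
    · rw [im_mul', e1, e2]; simp only; omega

/-- `3 + 2 i` -/
def c32 : ZI := ⟨3, 2⟩

lemma tc_c32 : tc c32 = 3 + 2 * I := by unfold tc c32; simp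

lemma c32_mul (D : ZI) : (c32 * D).re = 3 * D.re - 2 * D.im ∧ (c32 * D).im = 3 * D.im + 2 * D.re := by
  rw [re_mul', im_mul']
  have e1 : c32.re = 3 := rfl
  have e2 : c32.im = 2 := rfl
  rw [e1, e2]
  constructor <;> ring

/-- the two classes of primary elements modulo four -/
lemma prim_split {D : ZI} (hD : prim D) (a : ZI) :
    (prim a ∧ sd a = sd D ∧ (4 : ZI) ∣ a - D ∧ ¬ (4 : ZI) ∣ a - c32 * D) ∨
    (prim a ∧ sd a = -sd D ∧ ¬ (4 : ZI) ∣ a - D ∧ (4 : ZI) ∣ a - c32 * D) ∨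
    (¬ prim a ∧ ¬ (4 : ZI) ∣ a - D ∧ ¬ (4 : ZI) ∣ a - c32 * D) := by
  obtain ⟨c1, c2⟩ := c32_mul D
  rw [dvd_four, dvd_four]
  unfold prim at *
  simp only [Zsqrtd.re_sub, Zsqrtd.im_sub, c1, c2]
  obtain ⟨h1, h2⟩ := hD
  unfold sd
  by_cases h5 : a.im % 2 = 0 ∧ (a.re + a.im) % 4 = 1
  · by_cases h3 : a.im % 4 = 0
    · by_cases h4 : D.im % 4 = 0
      · left
        rw [if_pos h3, if_pos h4]
        refine ⟨h5, rfl, ?_, ?_⟩ <;> omega
      · right; left
        rw [if_pos h3, if_neg h4]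
        refine ⟨h5, by ring, ?_, ?_⟩ <;> omega
    · by_cases h4 : D.im % 4 = 0
      · right; left
        rw [if_neg h3, if_pos h4]
        refine ⟨h5, rfl, ?_, ?_⟩ <;> omega
      · left
        rw [if_neg h3, if_neg h4]
        refine ⟨h5, rfl, ?_, ?_⟩ <;> omega
  · right; right
    refine ⟨h5, ?_, ?_⟩ <;> omega

open Classical in
/-- the sum over a class modulo four -/
lemma sum_class (h : IsLat L RG Ω) (hp : PF pr) (V : Finset ι) (e : ι → ℕ) (c : ZI)
    {δ : ℝ} (hδ : 0 < δ) :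
    ∑' a : ZI, (if (4 : ZI) ∣ a - c * DD pr V then tc (c4 pr V e a) * fd δ (tc a) else 0) =
      ∑' t : ZI, tc (c4 pr V e (4 * t)) * fd δ (tc (c * DD pr V + 4 * t)) := by
  have hinj : Function.Injective (fun t : ZI => c * DD pr V + 4 * t) := by
    intro a b hab
    have : (4 : ZI) * a = 4 * b := by
      have h1 : c * DD pr V + 4 * a = c * DD pr V + 4 * b := hab
      linear_combination h1
    exact mul_left_cancel₀ (by decide) this
  rw [← hinj.tsum_eq]
  · refine tsum_congr fun t => ?_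
    have h5 : (4 : ZI) ∣ c * DD pr V + 4 * t - c * DD pr V := ⟨t, by ring⟩
    rw [if_pos h5]
    congr 2
    apply c4_per hp
    exact ⟨c, by ring⟩
  · intro a ha
    rw [Function.mem_support] at ha
    have h5 : (4 : ZI) ∣ a - c * DD pr V := by
      by_contra hc
      rw [if_neg hc] at ha
      exact ha rfl
    obtain ⟨t, ht⟩ := h5
    exact ⟨t, by show c * DD pr V + 4 * t = a; rw [← ht]; ring⟩

theorem t_RSD : S_RSD := by
  classical
  intro L Ω h ι _ pr hp V e _ δ hδ
  set D := DD pr V with hDdef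
  have hDp : prim D := DD_prim hp V
  have hper : ∀ a b, D ∣ a - b → tc (c4 pr V e (4 * a)) = tc (c4 pr V e (4 * b)) := by
    intro a b hab
    rw [c4_per hp V e (a := 4 * a) (b := 4 * b) (by rw [← mul_sub]; exact hab.mul_left _)]
  obtain ⟨hs1, h1⟩ := RS_four h hDp 1 (F := fun t => tc (c4 pr V e (4 * t)))
    (fun a => c4_bd hp V e _) hper hδ
  obtain ⟨hs2, h2⟩ := RS_four h hDp c32 (F := fun t => tc (c4 pr V e (4 * t)))
    (fun a => c4_bd hp V e _) hper hδ
  have bd : ∀ (P : ZI → Prop) (a : ZI), ‖if P a then tc (c4 pr V e a) else 0‖ ≤ 1 := by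
    intro P a
    split_ifs
    · exact c4_bd hp V e a
    · rw [norm_zero]; norm_num
  have sm : ∀ P : ZI → Prop, Summable (fun a : ZI => if P a then tc (c4 pr V e a) * fd δ (tc a) else 0) := by
    intro P
    refine (summ_bd h hδ (bd P)).congr fun a => ?_
    split_ifs
    · rfl
    · rw [zero_mul]
  have g1 := sum_class h hp V e 1 hδ
  have g2 := sum_class h hp V e c32 hδ
  have key : ∀ a : ZI, ccd pr V e a * fd δ (tc a) =
      tc (sd D) * ((if (4 : ZI) ∣ a - 1 * D then tc (c4 pr V e a) * fd δ (tc a) else 0) -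
        (if (4 : ZI) ∣ a - c32 * D then tc (c4 pr V e a) * fd δ (tc a) else 0)) := by
    intro a
    unfold ccd
    rw [one_mul]
    rcases prim_split hDp a with ⟨p1, p2, p3, p4⟩ | ⟨p1, p2, p3, p4⟩ | ⟨p1, p3, p4⟩
    · rw [if_pos p1, if_pos p3, if_neg p4, p2]; ring
    · rw [if_pos p1, if_neg p3, if_pos p4, p2, tc_neg]; ring
    · rw [if_neg p1, if_neg p3, if_neg p4]; ring
  unfold RS
  rw [tsum_congr key, tsum_mul_left, (sm _).tsum_sub (sm _), g1, g2, h1, h2, tc_one, tc_c32]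
  rw [mul_assoc, ← mul_sub, ← Finset.sum_sub_distrib]
  congr 2
  refine Finset.sum_congr (by ext; simp) fun q _ => ?_
  rw [one_mul]
  ring

end Pool.Agent.L7h23.QD
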